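import Pool.Agent.Lib.MP_0f5a21_lc.H.Main

set_option autoImplicit false

namespace Pool.Agent.Results.MP_0f5a21_lc.InfiniteBlocksSigmaThree

open Pool.Agent.Lib.MP_0f5a21_lc
open Pool.Agent.Lib.MP_0f5a21_lc.H

/-- Let `T` be a PAC tree: a computable binary tree without dead ends, all of whose paths are
computable. Suppose that there is a Sigma-3 set of nodes (those `σ` with
`∃ w, ∀ n, ∃ p, S σ w n p = true`, where `S` is computable) such that for every node `σ` of `T`
through which exactly one path `f` passes and such that `f` is the least or the greatest element of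
its block: the block of `f` is infinite iff `σ` is in this set. Then the lexicographic order of the
isolated paths of `T` has a computable presentation. -/
theorem result (T : Set (List Bool)) (hnil : [] ∈ T)
    (hdown : ∀ σ τ : List Bool, σ <+: τ → τ ∈ T → σ ∈ T)
    (hcomp : ComputablePred (fun σ : List Bool => σ ∈ T))
    (hup : ∀ σ ∈ T, ∃ b : Bool, σ ++ [b] ∈ T)
    (hpac : ∀ f : ℕ → Bool, (∀ n : ℕ, List.ofFn (fun i : Fin n => f i) ∈ T) → Computable f)
    (S : List Bool → ℕ → ℕ → ℕ → Bool)
    (hS : Computable fun x : ((List Bool × ℕ) × ℕ) × ℕ => S x.1.1.1 x.1.1.2 x.1.2 x.2)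
    (h : ∀ σ ∈ T, ∀ f, PathOf T f → Through σ f → (∀ g, PathOf T g → Through σ g → g = f) →
      (LeftBlock T f = ∅ ∨ RightBlock T f = ∅) →
      ((BlockOf T f).Infinite ↔ ∃ w, ∀ n, ∃ p, S σ w n p = true)) :
    ∃ D : Set ℕ, ∃ R : ℕ → ℕ → Prop,
        ComputablePred (fun n : ℕ => n ∈ D) ∧
        ComputablePred (fun p : ℕ × ℕ => R p.1 p.2) ∧
        ∃ e : {n : ℕ // n ∈ D} ≃
            {f : ℕ → Bool // (∀ n : ℕ, List.ofFn (fun i : Fin n => f i) ∈ T) ∧
              ∃ m : ℕ, ∀ g : ℕ → Bool,
                (∀ n : ℕ, List.ofFn (fun i : Fin n => g i) ∈ T) →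
                (∀ i < m, g i = f i) → g = f},
          ∀ a b : {n : ℕ // n ∈ D},
            (R a.1 b.1 ↔ ∃ k : ℕ, (∀ i < k, (e a).1 i = (e b).1 i) ∧
              (e a).1 k = false ∧ (e b).1 k = true) := by
  obtain ⟨t, ht, htT⟩ := ComputablePred.computable_iff.1 hcomp
  have hT : T = {σ | t σ = true} := by
    ext σ
    exact iff_of_eq (congrFun htT σ)
  subst hT
  have htree : IsTree t := by
    refine ⟨hnil, fun σ b h => hdown σ (σ ++ [b]) (List.prefix_append _ _) h, fun σ h => ?_⟩
    exact hup σ h
  apply final_form htree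
  have hv : Computable fun x : ((List Bool × ℕ) × ℕ) × ℕ => x.1.1.1 :=
    Computable.fst.comp (Computable.fst.comp Computable.fst)
  have hw : Computable fun x : ((List Bool × ℕ) × ℕ) × ℕ => x.1.1.2 :=
    Computable.snd.comp (Computable.fst.comp Computable.fst)
  have hn : Computable fun x : ((List Bool × ℕ) × ℕ) × ℕ => x.1.2 :=
    Computable.snd.comp Computable.fst
  exact presentable_of_cert htree ht hpac (comp_QC ht hS true hv hw hn Computable.snd)
    (comp_QC ht hS false hv hw hn Computable.snd) (cert_c htree hpac (hypC_tree htree h))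

end Pool.Agent.Results.MP_0f5a21_lc.InfiniteBlocksSigmaThree
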