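import Pool.Agent.Lib.MP_0f5a21_lc.Comp

set_option autoImplicit false

namespace Pool.Agent.Results.MP_0f5a21_lc.TwoSidedListed

open Pool.Agent.Lib.MP_0f5a21_lc

/-- Let `T` be a computable binary tree without dead ends, and `P` a uniformly computable sequence
of binary sequences which contains every path of `T` that is a limit of other paths from both
sides. Then the lexicographic order of the isolated paths of `T` has a computable presentation. -/
theorem result (T : Set (List Bool)) (hnil : [] ∈ T)
    (hdown : ∀ σ τ : List Bool, σ <+: τ → τ ∈ T → σ ∈ T)
    (hcomp : ComputablePred (fun σ : List Bool => σ ∈ T))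
    (hup : ∀ σ ∈ T, ∃ b : Bool, σ ++ [b] ∈ T)
    (P : ℕ → ℕ → Bool) (hP : Computable₂ P)
    (hlist : ∀ f : ℕ → Bool, (∀ n : ℕ, List.ofFn (fun i : Fin n => f i) ∈ T) →
      (∀ m : ℕ,
        (∃ g : ℕ → Bool, (∀ n : ℕ, List.ofFn (fun i : Fin n => g i) ∈ T) ∧
          ∃ k : ℕ, m ≤ k ∧ (∀ i < k, g i = f i) ∧ g k = false ∧ f k = true) ∧
        (∃ g : ℕ → Bool, (∀ n : ℕ, List.ofFn (fun i : Fin n => g i) ∈ T) ∧
          ∃ k : ℕ, m ≤ k ∧ (∀ i < k, f i = g i) ∧ f k = false ∧ g k = true)) →
      ∃ k : ℕ, P k = f) :
    ∃ D : Set ℕ, ∃ R : ℕ → ℕ → Prop,
        ComputablePred (fun n : ℕ => n ∈ D) ∧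
        ComputablePred (fun p : ℕ × ℕ => R p.1 p.2) ∧
        ∃ e : {n : ℕ // n ∈ D} ≃
            {f : ℕ → Bool // (∀ n : ℕ, List.ofFn (fun i : Fin n => f i) ∈ T) ∧
              ∃ m : ℕ, ∀ g : ℕ → Bool,
                (∀ n : ℕ, List.ofFn (fun i : Fin n => g i) ∈ T) →
                (∀ i < m, g i = f i) → g = f},
          ∀ a b : {n : ℕ // n ∈ D},
            (R a.1 b.1 ↔ ∃ k : ℕ, (∀ i < k, (e a).1 i = (e b).1 i) ∧
              (e a).1 k = false ∧ (e b).1 k = true) := by
  obtain ⟨t, ht, htT⟩ := ComputablePred.computable_iff.1 hcomp
  have hT : T = {σ | t σ = true} := by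
    ext σ
    exact iff_of_eq (congrFun htT σ)
  subst hT
  have htree : IsTree t := by
    refine ⟨hnil, fun σ b h => hdown σ (σ ++ [b]) (List.prefix_append _ _) h, fun σ h => ?_⟩
    exact hup σ h
  refine presentation htree ht (comp_merge ht hP) ?_
  intro f hf hinf
  by_cases h1 : ∃ a, ∀ n, a ≤ n → both t (pre f n) = true → f n = false
  · obtain ⟨a, ha⟩ := h1
    refine ⟨2 * Encodable.encode (false, pre f a) + 1, ?_⟩
    rw [merge_odd]
    have key : ∀ j, ∀ i < a + j, pathC t false (pre f a) i = f i := by
      intro j
      induction j with
      | zero =>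
        apply agree_of_pre
        have := pathC_pre0 (t := t) false (pre f a)
        rw [pre_length] at this
        exact this
      | succ j ih =>
        intro i hi
        by_cases hi' : i < a + j
        · exact ih i hi'
        · have hij : i = a + j := by omega
          subst hij
          rw [pathC_step false (pre f a) (n := a + j) (by rw [pre_length]; omega), pre_eq_of ih]
          have h2 := hf (a + j + 1)
          rw [pre_succ] at h2
          cases hb : both t (pre f (a + j))
          · exact (dir_unique hb h2).symm
          · unfold dir
            rw [hb, ha (a + j) (by omega) hb]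
            rfl
    funext i
    exact key (i + 1) i (by omega)
  · by_cases h2 : ∃ a, ∀ n, a ≤ n → both t (pre f n) = true → f n = true
    · obtain ⟨a, ha⟩ := h2
      refine ⟨2 * Encodable.encode (true, pre f a) + 1, ?_⟩
      rw [merge_odd]
      have key : ∀ j, ∀ i < a + j, pathC t true (pre f a) i = f i := by
        intro j
        induction j with
        | zero =>
          apply agree_of_pre
          have := pathC_pre0 (t := t) true (pre f a)
          rw [pre_length] at this
          exact this
        | succ j ih =>
          intro i hi
          by_cases hi' : i < a + j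
          · exact ih i hi'
          · have hij : i = a + j := by omega
            subst hij
            rw [pathC_step true (pre f a) (n := a + j) (by rw [pre_length]; omega), pre_eq_of ih]
            have h2 := hf (a + j + 1)
            rw [pre_succ] at h2
            cases hb : both t (pre f (a + j))
            · exact (dir_unique hb h2).symm
            · unfold dir
              rw [hb, ha (a + j) (by omega) hb]
              rfl
      funext i
      exact key (i + 1) i (by omega)
    · have htwo := hlist f hf (by
        intro m
        constructor
        · by_contra hc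
          apply h1
          refine ⟨m, fun n hn hb => ?_⟩
          by_contra hfn
          have hfn' : f n = true := by
            cases h : f n
            · exact absurd h hfn
            · rfl
          obtain ⟨g, hg, hag, hgn⟩ := exists_branch htree hb false
          exact hc ⟨g, hg, n, hn, hag, hgn, hfn'⟩
        · by_contra hc
          apply h2
          refine ⟨m, fun n hn hb => ?_⟩
          by_contra hfn
          have hfn' : f n = false := by
            cases h : f n
            · rfl
            · exact absurd h hfn
          obtain ⟨g, hg, hag, hgn⟩ := exists_branch htree hb true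
          exact hc ⟨g, hg, n, hn, fun i hi => (hag i hi).symm, hfn', hgn⟩)
      obtain ⟨k, hk⟩ := htwo
      exact ⟨2 * k, by rw [merge_even, hk]⟩

end Pool.Agent.Results.MP_0f5a21_lc.TwoSidedListed
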